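import Pool.Agent.MP_305420_co.Defs

set_option linter.unusedSectionVars false

namespace Pool.Agent.CSG

open Finset

variable {V : Type*} [Fintype V] [DecidableEq V]

/-- indicator of membership -/
def ind (v : V) (X : Finset V) : ℤ := if v ∈ X then 1 else 0

/-- `1` if the edge has exactly one end in `X` -/
def cut (e : V × V) (X : Finset V) : ℤ := if (e.1 ∈ X ↔ e.2 ∈ X) then 0 else 1

/-- cut degree of a multigraph given by ordered pairs -/
def dG (G : Multiset (V × V)) (X : Finset V) : ℤ := (G.map (fun e => cut e X)).sum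

/-- mass of a multiset of vertices inside `X` -/
def ms (M : Multiset V) (X : Finset V) : ℤ := (M.map (fun v => ind v X)).sum

/-- multiset of all edge ends -/
def ends (G : Multiset (V × V)) : Multiset V := G.map Prod.fst + G.map Prod.snd

/-- reflected function -/
def refl (p : Finset V → ℤ) (X : Finset V) : ℤ := p Xᶜ

/-- `G` with terminal multiset `T` is a valid partial splitting -/
def Valid (p : Finset V → ℤ) (G : Multiset (V × V)) (T : Multiset V) : Prop :=
  ∀ X, p X ≤ dG G X + ms T X ∧ p Xᶜ ≤ dG G X + ms T X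

/-- there is a covering graph with the prescribed ends -/
def Solvable (p : Finset V → ℤ) (M : Multiset V) : Prop :=
  ∃ G : Multiset (V × V), ends G = M ∧ ∀ X, p X ≤ dG G X

/-- a star obstacle of value at least `n` -/
def Obst (p : Finset V → ℤ) (n : ℤ) : Prop :=
  ∃ (P : Finset (Finset V)) (w : Finset V → ℤ), IsSubpartition P ∧ (∀ X ∈ P, 0 ≤ w X) ∧
    (∀ I ⊆ P, I.Nonempty → 1 + ∑ X ∈ I, w X ≤ symmMax p (I.sup id)) ∧
    n ≤ ∑ X ∈ P, (1 + w X)

/-- standing assumptions -/
structure CS (p : Finset V → ℤ) : Prop where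
  sup : CrossingSupermodular p
  empty : p ∅ = 0
  univ : p univ = 0

section ind
omit [Fintype V]

theorem ind_of_mem {v : V} {X : Finset V} (h : v ∈ X) : ind v X = 1 := by simp [ind, h]
theorem ind_of_notMem {v : V} {X : Finset V} (h : v ∉ X) : ind v X = 0 := by simp [ind, h]
theorem ind_nonneg (v : V) (X : Finset V) : 0 ≤ ind v X := by unfold ind; split_ifs <;> simp
theorem ind_le_one (v : V) (X : Finset V) : ind v X ≤ 1 := by unfold ind; split_ifs <;> simp
theorem cut_nonneg (e : V × V) (X : Finset V) : 0 ≤ cut e X := by unfold cut; split_ifs <;> simp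
theorem cut_le_one (e : V × V) (X : Finset V) : cut e X ≤ 1 := by unfold cut; split_ifs <;> simp

theorem cut_eq (e : V × V) (X : Finset V) :
    cut e X = ind e.1 X + ind e.2 X - 2 * (ind e.1 X * ind e.2 X) := by
  unfold cut ind
  by_cases h1 : e.1 ∈ X <;> by_cases h2 : e.2 ∈ X <;> simp [h1, h2]

theorem cut_le_ind (e : V × V) (X : Finset V) : cut e X ≤ ind e.1 X + ind e.2 X := by
  unfold cut ind
  by_cases h1 : e.1 ∈ X <;> by_cases h2 : e.2 ∈ X <;> simp [h1, h2]

theorem cut_submod (e : V × V) (X Y : Finset V) :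
    cut e (X ∩ Y) + cut e (X ∪ Y) ≤ cut e X + cut e Y := by
  unfold cut
  by_cases h1 : e.1 ∈ X <;> by_cases h2 : e.2 ∈ X <;> by_cases h3 : e.1 ∈ Y <;>
    by_cases h4 : e.2 ∈ Y <;> simp [h1, h2, h3, h4]

theorem cut_empty (e : V × V) : cut e (∅ : Finset V) = 0 := by simp [cut]

@[simp] theorem dG_zero (X : Finset V) : dG (0 : Multiset (V × V)) X = 0 := by simp [dG]
@[simp] theorem dG_cons (e : V × V) (G : Multiset (V × V)) (X : Finset V) :
    dG (e ::ₘ G) X = cut e X + dG G X := by simp [dG]
@[simp] theorem dG_add (G H : Multiset (V × V)) (X : Finset V) :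
    dG (G + H) X = dG G X + dG H X := by simp [dG]
@[simp] theorem dG_singleton (e : V × V) (X : Finset V) :
    dG ({e} : Multiset (V × V)) X = cut e X := by simp [dG]
@[simp] theorem ms_zero (X : Finset V) : ms (0 : Multiset V) X = 0 := by simp [ms]
@[simp] theorem ms_cons (v : V) (M : Multiset V) (X : Finset V) :
    ms (v ::ₘ M) X = ind v X + ms M X := by simp [ms]
@[simp] theorem ms_add (M N : Multiset V) (X : Finset V) :
    ms (M + N) X = ms M X + ms N X := by simp [ms]
@[simp] theorem ms_singleton (v : V) (X : Finset V) :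
    ms ({v} : Multiset V) X = ind v X := by simp [ms]
@[simp] theorem ends_zero : ends (0 : Multiset (V × V)) = 0 := by simp [ends]
theorem ends_cons (e : V × V) (G : Multiset (V × V)) :
    ends (e ::ₘ G) = e.1 ::ₘ e.2 ::ₘ ends G := by
  simp only [ends, Multiset.map_cons, Multiset.cons_add, Multiset.add_cons]
  rw [Multiset.cons_swap]
theorem ends_add (G H : Multiset (V × V)) : ends (G + H) = ends G + ends H := by
  simp only [ends, Multiset.map_add]; abel
theorem card_ends (G : Multiset (V × V)) :
    Multiset.card (ends G) = 2 * Multiset.card G := by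
  simp [ends]; ring

theorem dG_nonneg (G : Multiset (V × V)) (X : Finset V) : 0 ≤ dG G X := by
  induction G using Multiset.induction_on with
  | empty => simp
  | cons e G ih => rw [dG_cons]; have := cut_nonneg e X; omega

theorem dG_le_card (G : Multiset (V × V)) (X : Finset V) : dG G X ≤ Multiset.card G := by
  induction G using Multiset.induction_on with
  | empty => simp
  | cons e G ih => rw [dG_cons, Multiset.card_cons]; have := cut_le_one e X; push_cast; omega

theorem dG_empty (G : Multiset (V × V)) : dG G (∅ : Finset V) = 0 := by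
  induction G using Multiset.induction_on with
  | empty => simp
  | cons e G ih => rw [dG_cons, ih, cut_empty]; simp

theorem dG_submod (G : Multiset (V × V)) (X Y : Finset V) :
    dG G (X ∩ Y) + dG G (X ∪ Y) ≤ dG G X + dG G Y := by
  induction G using Multiset.induction_on with
  | empty => simp
  | cons e G ih => simp only [dG_cons]; have := cut_submod e X Y; omega

theorem dG_le_ms (G : Multiset (V × V)) (X : Finset V) : dG G X ≤ ms (ends G) X := by
  induction G using Multiset.induction_on with
  | empty => simp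
  | cons e G ih => rw [dG_cons, ends_cons, ms_cons, ms_cons]; have := cut_le_ind e X; omega

theorem ms_nonneg (M : Multiset V) (X : Finset V) : 0 ≤ ms M X := by
  induction M using Multiset.induction_on with
  | empty => simp
  | cons e G ih => rw [ms_cons]; have := ind_nonneg e X; omega

theorem ms_le_card (M : Multiset V) (X : Finset V) : ms M X ≤ Multiset.card M := by
  induction M using Multiset.induction_on with
  | empty => simp
  | cons e G ih => rw [ms_cons, Multiset.card_cons]; have := ind_le_one e X; push_cast; omega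

theorem ms_empty (M : Multiset V) : ms M (∅ : Finset V) = 0 := by
  induction M using Multiset.induction_on with
  | empty => simp
  | cons e G ih => rw [ms_cons, ih]; simp [ind]

theorem ind_inter_union (v : V) (X Y : Finset V) :
    ind v (X ∩ Y) + ind v (X ∪ Y) = ind v X + ind v Y := by
  unfold ind
  by_cases h1 : v ∈ X <;> by_cases h2 : v ∈ Y <;> simp [h1, h2]

theorem ms_inter_union (M : Multiset V) (X Y : Finset V) :
    ms M (X ∩ Y) + ms M (X ∪ Y) = ms M X + ms M Y := by
  induction M using Multiset.induction_on with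
  | empty => simp
  | cons e G ih => simp only [ms_cons]; have := ind_inter_union e X Y; omega

theorem ind_sdiff (v : V) (X Y : Finset V) :
    ind v (X \ Y) + ind v (X ∩ Y) = ind v X := by
  unfold ind
  by_cases h1 : v ∈ X <;> by_cases h2 : v ∈ Y <;> simp [h1, h2]

theorem ms_sdiff (M : Multiset V) (X Y : Finset V) :
    ms M (X \ Y) + ms M (X ∩ Y) = ms M X := by
  induction M using Multiset.induction_on with
  | empty => simp
  | cons e G ih => simp only [ms_cons]; have := ind_sdiff e X Y; omega

theorem ind_mono (v : V) {X Y : Finset V} (h : X ⊆ Y) : ind v X ≤ ind v Y := by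
  unfold ind
  by_cases h1 : v ∈ X
  · simp [h1, h h1]
  · by_cases h2 : v ∈ Y <;> simp [h1, h2]

theorem ms_mono (M : Multiset V) {X Y : Finset V} (h : X ⊆ Y) : ms M X ≤ ms M Y := by
  induction M using Multiset.induction_on with
  | empty => simp
  | cons e G ih => simp only [ms_cons]; have := ind_mono e h; omega

theorem ms_pos_of_mem {M : Multiset V} {X : Finset V} {v : V} (hv : v ∈ M) (hX : v ∈ X) :
    1 ≤ ms M X := by
  obtain ⟨N, rfl⟩ := Multiset.exists_cons_of_mem hv
  rw [ms_cons, ind_of_mem hX]; have := ms_nonneg N X; omega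

theorem exists_mem_of_ms_pos {M : Multiset V} {X : Finset V} (h : 0 < ms M X) :
    ∃ v ∈ M, v ∈ X := by
  induction M using Multiset.induction_on with
  | empty => simp at h
  | cons e G ih =>
    by_cases he : e ∈ X
    · exact ⟨e, by simp, he⟩
    · rw [ms_cons, ind_of_notMem he] at h
      obtain ⟨v, hv, hvX⟩ := ih (by omega)
      exact ⟨v, by simp [hv], hvX⟩

end ind

theorem ind_compl (v : V) (X : Finset V) : ind v Xᶜ = 1 - ind v X := by
  unfold ind; by_cases h : v ∈ X <;> simp [h]

theorem cut_compl (e : V × V) (X : Finset V) : cut e Xᶜ = cut e X := by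
  unfold cut
  by_cases h1 : e.1 ∈ X <;> by_cases h2 : e.2 ∈ X <;> simp [h1, h2]

theorem dG_compl (G : Multiset (V × V)) (X : Finset V) : dG G Xᶜ = dG G X := by
  simp only [dG, cut_compl]

theorem dG_univ (G : Multiset (V × V)) : dG G (univ : Finset V) = 0 := by
  rw [← compl_empty, dG_compl, dG_empty]

theorem ms_compl (M : Multiset V) (X : Finset V) : ms M Xᶜ = Multiset.card M - ms M X := by
  induction M using Multiset.induction_on with
  | empty => simp
  | cons e G ih => simp only [ms_cons, Multiset.card_cons, ih, ind_compl]; push_cast; ring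

theorem symmMax_compl (p : Finset V → ℤ) (X : Finset V) : symmMax p Xᶜ = symmMax p X := by
  simp [symmMax, max_comm]

theorem symmMax_refl (p : Finset V → ℤ) (X : Finset V) : symmMax (refl p) X = symmMax p X := by
  simp [symmMax, refl, max_comm]

theorem le_symmMax (p : Finset V → ℤ) (X : Finset V) : p X ≤ symmMax p X := le_max_left _ _
theorem le_symmMax' (p : Finset V → ℤ) (X : Finset V) : p Xᶜ ≤ symmMax p X := le_max_right _ _

theorem crossing_compl {X Y : Finset V} (h : Crossing X Y) : Crossing Xᶜ Yᶜ := by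
  obtain ⟨⟨a, ha⟩, ⟨b, hb⟩, ⟨c, hc⟩, ⟨d, hd⟩⟩ := h
  refine ⟨⟨d, ?_⟩, ⟨c, ?_⟩, ⟨b, ?_⟩, ⟨a, ?_⟩⟩ <;> simp_all

theorem crossing_of {X Y : Finset V} {a b c d : V} (ha : a ∈ X) (ha' : a ∈ Y) (hb : b ∈ X)
    (hb' : b ∉ Y) (hc : c ∉ X) (hc' : c ∈ Y) (hd : d ∉ X) (hd' : d ∉ Y) : Crossing X Y := by
  refine ⟨⟨a, ?_⟩, ⟨b, ?_⟩, ⟨c, ?_⟩, ⟨d, ?_⟩⟩ <;> simp [*]

/-- supermodularity for sets with a common point and a common non-point -/
theorem CS.super {p : Finset V → ℤ} (hp : CS p) {X Y : Finset V} {a d : V} (ha : a ∈ X)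
    (ha' : a ∈ Y) (hd : d ∉ X) (hd' : d ∉ Y) : p X + p Y ≤ p (X ∩ Y) + p (X ∪ Y) := by
  by_cases h1 : X ⊆ Y
  · rw [inter_eq_left.2 h1, union_eq_right.2 h1]
  by_cases h2 : Y ⊆ X
  · rw [inter_eq_right.2 h2, union_eq_left.2 h2]; omega
  obtain ⟨b, hb, hb'⟩ := not_subset.1 h1
  obtain ⟨c, hc, hc'⟩ := not_subset.1 h2
  exact hp.sup X Y (crossing_of ha ha' hb hb' hc' hc hd hd')

theorem CS.refl {p : Finset V → ℤ} (hp : CS p) : CS (refl p) where
  sup := by
    intro X Y h
    have := hp.sup _ _ (crossing_compl h)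
    simp only [CSG.refl, compl_inter, compl_union]
    omega
  empty := by simp [CSG.refl, hp.univ]
  univ := by simp [CSG.refl, hp.empty]

theorem CS.sub_dG {p : Finset V → ℤ} (hp : CS p) (G : Multiset (V × V)) :
    CS (fun X => p X - dG G X) where
  sup := by
    intro X Y h
    have := hp.sup X Y h
    have := dG_submod G X Y
    simp only; omega
  empty := by simp [hp.empty, dG_empty]
  univ := by simp [hp.univ, dG_univ]

theorem valid_iff {p : Finset V → ℤ} {G : Multiset (V × V)} {T : Multiset V} :
    Valid p G T ↔ ∀ X, symmMax p X ≤ dG G X + ms T X := by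
  simp [Valid, symmMax]

theorem Valid.refl {p : Finset V → ℤ} {G : Multiset (V × V)} {T : Multiset V}
    (h : Valid p G T) : Valid (refl p) G T := by
  rw [valid_iff] at h ⊢; simpa [symmMax_refl] using h

theorem Valid.le {p : Finset V → ℤ} {G : Multiset (V × V)} {T : Multiset V}
    (h : Valid p G T) (X : Finset V) : p X ≤ dG G X + ms T X := (h X).1

theorem Valid.le_compl {p : Finset V → ℤ} {G : Multiset (V × V)} {T : Multiset V}
    (h : Valid p G T) (X : Finset V) : p X ≤ dG G X + ms T Xᶜ := by
  have := (h Xᶜ).2; rwa [compl_compl, dG_compl] at this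

theorem Valid.sub {p : Finset V → ℤ} {G H : Multiset (V × V)} {T : Multiset V}
    (h : Valid p (G + H) T) : Valid (fun X => p X - dG H X) G T := by
  intro X
  have := h X
  simp only [dG_add, dG_compl] at this ⊢
  omega

theorem Valid.ends {p : Finset V → ℤ} {G : Multiset (V × V)} {T : Multiset V}
    (h : Valid p G T) : Valid p 0 (ends G + T) := by
  intro X
  have := h X
  have := dG_le_ms G X
  simp only [dG_zero, ms_add]
  omega

theorem solvable_refl {p : Finset V → ℤ} {M : Multiset V} :
    Solvable (refl p) M ↔ Solvable p M := by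
  constructor
  · rintro ⟨G, h1, h2⟩
    refine ⟨G, h1, fun X => ?_⟩
    have := h2 Xᶜ
    rwa [refl, compl_compl, dG_compl] at this
  · rintro ⟨G, h1, h2⟩
    refine ⟨G, h1, fun X => ?_⟩
    have := h2 Xᶜ
    rwa [dG_compl] at this

theorem Solvable.add {p : Finset V → ℤ} {M : Multiset V} (H : Multiset (V × V))
    (h : Solvable (fun X => p X - dG H X) M) : Solvable p (ends H + M) := by
  obtain ⟨G, h1, h2⟩ := h
  refine ⟨H + G, by rw [ends_add, h1], fun X => ?_⟩
  have := h2 X
  simp only [dG_add] at this ⊢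
  omega

theorem obst_refl {p : Finset V → ℤ} {n : ℤ} : Obst (refl p) n ↔ Obst p n := by
  simp only [Obst, symmMax_refl]

theorem Obst.mono {p p' : Finset V → ℤ} {n n' : ℤ} (h : Obst p n) (hp : ∀ X, p X ≤ p' X)
    (hn : n' ≤ n) : Obst p' n' := by
  obtain ⟨P, w, h1, h2, h3, h4⟩ := h
  refine ⟨P, w, h1, h2, fun I hI hne => (h3 I hI hne).trans ?_, hn.trans h4⟩
  exact max_le_max (hp _) (hp _)

end Pool.Agent.CSG
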