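import Mathlib

namespace Pool.Agent.CSG

open Finset

variable {V : Type*} [Fintype V] [DecidableEq V]

/-- `X` and `Y` cross: all four of `X ∩ Y`, `X \ Y`, `Y \ X`, `V \ (X ∪ Y)` are nonempty. -/
def Crossing (X Y : Finset V) : Prop :=
  (X ∩ Y).Nonempty ∧ (X \ Y).Nonempty ∧ (Y \ X).Nonempty ∧ (X ∪ Y)ᶜ.Nonempty

/-- The supermodular inequality holds for every crossing pair. -/
def CrossingSupermodular (p : Finset V → ℤ) : Prop :=
  ∀ X Y : Finset V, Crossing X Y → p X + p Y ≤ p (X ∩ Y) + p (X ∪ Y)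

open Classical in
/-- Number of edges (with multiplicity) having exactly one endpoint in `X`. -/
noncomputable def cutDeg (G : Multiset (Sym2 V)) (X : Finset V) : ℕ :=
  Multiset.card (G.filter (fun e => ∃ u ∈ X, ∃ v, v ∉ X ∧ e = s(u, v)))

/-- The multigraph `G` covers `p`. -/
def Covers (G : Multiset (Sym2 V)) (p : Finset V → ℤ) : Prop :=
  ∀ X : Finset V, p X ≤ (cutDeg G X : ℤ)

/-- The symmetrisation `q(X) = max (p X, p (V \ X))`. -/
def symmMax (p : Finset V → ℤ) (X : Finset V) : ℤ := max (p X) (p Xᶜ)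

/-- A family of pairwise disjoint subsets of `V`. -/
def IsSubpartition (P : Finset (Finset V)) : Prop :=
  ∀ X ∈ P, ∀ Y ∈ P, X ≠ Y → Disjoint X Y

/-- The values `∑ q(X)` over subpartitions. -/
def subpartitionValues (p : Finset V → ℤ) : Set ℤ :=
  {a | ∃ P : Finset (Finset V), IsSubpartition P ∧ a = ∑ X ∈ P, symmMax p X}

/-- The values `∑ (1 + w X)` of weighted subpartitions such that every nonempty
subfamily `I` has `q(⋃ I) ≥ 1 + ∑_{X ∈ I} w X`. -/
def starValues (p : Finset V → ℤ) : Set ℕ :=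
  {b | ∃ (P : Finset (Finset V)) (w : Finset V → ℕ), IsSubpartition P ∧
    (∀ I ⊆ P, I.Nonempty → 1 + ∑ X ∈ I, (w X : ℤ) ≤ symmMax p (I.sup id)) ∧
    b = ∑ X ∈ P, (1 + w X)}

end Pool.Agent.CSG
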