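import Pool.Agent.MP_305420_co.Basic

/-! A verified resolution checker for finite trace statements about crossing supermodular
functions.  A clause is a bit mask of literals; literal `16 c + 2 k` says that some set with
trace code `c` has value at least `k`, literal `16 c + 2 k + 1` is its negation. -/

set_option linter.unusedSectionVars false

namespace Pool.Agent.CSG.TS

open Finset

/-- binary trie of clauses -/
inductive Tr : Type
  | nil : Tr
  | leaf : ℕ → Tr
  | node : Tr → Tr → Tr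

/-- strict evaluation of a number -/
noncomputable def force (x : ℕ) (k : ℕ → Bool) : Bool :=
  Nat.rec (k 0) (fun m _ => k m) (Nat.add x 1)

theorem force_eq (x : ℕ) (k : ℕ → Bool) : force x k = k x := rfl

/-- lookup -/
noncomputable def look (k d : ℕ) : Tr → ℕ :=
  Nat.rec (fun t => Tr.rec 3 (fun C => C) (fun _ _ _ _ => 3) t)
    (fun m ih t => Tr.rec 3 (fun _ => 3)
      (fun l r _ _ => Bool.rec (ih r) (ih l) (Nat.beq (Nat.land (Nat.shiftRight k m) 1) 0)) t) d

/-- insertion in continuation passing style -/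
noncomputable def put (k C d : ℕ) : Tr → (Tr → Bool) → Bool :=
  Nat.rec (fun _ f => f (Tr.leaf C))
    (fun m ih t f => Tr.rec
      (Bool.rec (ih Tr.nil (fun r => f (Tr.node Tr.nil r))) (ih Tr.nil (fun l => f (Tr.node l Tr.nil)))
        (Nat.beq (Nat.land (Nat.shiftRight k m) 1) 0))
      (fun _ => false)
      (fun l r _ _ => Bool.rec (ih r (fun r' => f (Tr.node l r'))) (ih l (fun l' => f (Tr.node l' r)))
        (Nat.beq (Nat.land (Nat.shiftRight k m) 1) 0)) t) d

/-- all clauses of the trie satisfy `Q` -/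
noncomputable def All (Q : ℕ → Prop) (t : Tr) : Prop :=
  Tr.rec True (fun C => Q C) (fun _ _ a b => a ∧ b) t

theorem look_ok {Q : ℕ → Prop} (h3 : Q 3) (k d : ℕ) (t : Tr) (ht : All Q t) : Q (look k d t) := by
  induction d generalizing t with
  | zero => cases t <;> first | exact h3 | exact ht
  | succ m ih =>
    cases t with
    | nil => exact h3
    | leaf C => exact h3
    | node l r =>
      show Q (Bool.rec (look k m r) (look k m l) (Nat.beq (Nat.land (Nat.shiftRight k m) 1) 0))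
      cases Nat.beq (Nat.land (Nat.shiftRight k m) 1) 0
      · exact ih r ht.2
      · exact ih l ht.1

theorem put_ok {Q : ℕ → Prop} {k C : ℕ} (hC : Q C) (d : ℕ) (t : Tr) (f : Tr → Bool)
    (ht : All Q t) (h : put k C d t f = true) : ∃ t', All Q t' ∧ f t' = true := by
  induction d generalizing t f with
  | zero => exact ⟨Tr.leaf C, hC, h⟩
  | succ m ih =>
    cases t with
    | nil =>
      change Bool.rec (put k C m Tr.nil (fun r => f (Tr.node Tr.nil r)))
        (put k C m Tr.nil (fun l => f (Tr.node l Tr.nil)))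
        (Nat.beq (Nat.land (Nat.shiftRight k m) 1) 0) = true at h
      cases hb : Nat.beq (Nat.land (Nat.shiftRight k m) 1) 0 <;> rw [hb] at h
      · obtain ⟨t', h1, h2⟩ := ih Tr.nil _ trivial h
        exact ⟨Tr.node Tr.nil t', ⟨trivial, h1⟩, h2⟩
      · obtain ⟨t', h1, h2⟩ := ih Tr.nil _ trivial h
        exact ⟨Tr.node t' Tr.nil, ⟨h1, trivial⟩, h2⟩
    | leaf D => exact absurd h (by simp [put])
    | node l r =>
      change Bool.rec (put k C m r (fun r' => f (Tr.node l r')))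
        (put k C m l (fun l' => f (Tr.node l' r)))
        (Nat.beq (Nat.land (Nat.shiftRight k m) 1) 0) = true at h
      cases hb : Nat.beq (Nat.land (Nat.shiftRight k m) 1) 0 <;> rw [hb] at h
      · obtain ⟨t', h1, h2⟩ := ih r _ ht.2 h
        exact ⟨Tr.node l t', ⟨ht.1, h1⟩, h2⟩
      · obtain ⟨t', h1, h2⟩ := ih l _ ht.1 h
        exact ⟨Tr.node t' r, ⟨h1, ht.2⟩, h2⟩

/-- remove the bits of `F` -/
def rm (C F : ℕ) : ℕ := Nat.xor (Nat.lor C F) F

/-- the bit of a literal -/
def bit (j : ℕ) : ℕ := Nat.shiftLeft 1 j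

/-- index of the positive literal -/
def pos (c k : ℕ) : ℕ := Nat.add (Nat.mul 16 c) (Nat.mul 2 k)

/-- minimum with seven -/
noncomputable def cap (k : ℕ) : ℕ := Bool.rec 7 k (Nat.ble k 7)

/-- resolution on literal `j` of `B` -/
def res (A B j : ℕ) : ℕ := Nat.lor (rm A (bit (Nat.xor j 1))) (rm B (bit j))

/-- the clause of a crossing pair -/
noncomputable def crossC (full X Y a b j : ℕ) : ℕ :=
  Bool.rec 3
    (Bool.rec (Bool.rec (Bool.rec (Bool.rec
      (Nat.lor (Nat.lor (bit (Nat.succ (pos X a))) (bit (Nat.succ (pos Y b))))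
        (Nat.lor (bit (pos (Nat.land X Y) j))
          (bit (pos (Nat.lor X Y) (cap (Nat.sub (Nat.succ (Nat.add a b)) j))))))
      3 (Nat.beq (Nat.lor X Y) full)) 3 (Nat.beq (Nat.land X Y) Y)) 3 (Nat.beq (Nat.land X Y) X))
      3 (Nat.beq (Nat.land X Y) 0))
    (Nat.ble j (Nat.succ (Nat.add a b)))

/-- the clause named by a hint -/
noncomputable def hintC (full F : ℕ) (t : Tr) (h : ℕ) : ℕ :=
  Bool.rec
    (Bool.rec
      (rm (crossC full (Nat.land (Nat.shiftRight h 18) 4095) (Nat.land (Nat.shiftRight h 30) 4095)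
        (Nat.mod (Nat.shiftRight h 42) 8) (Nat.mod (Nat.shiftRight h 45) 8)
        (Nat.mod (Nat.shiftRight h 48) 8)) F)
      (Nat.lor (bit (Nat.succ (pos (Nat.land (Nat.shiftRight h 18) 4095)
          (Nat.succ (Nat.mod (Nat.shiftRight h 30) 7)))))
        (bit (pos (Nat.land (Nat.shiftRight h 18) 4095) (Nat.mod (Nat.shiftRight h 30) 7))))
      (Nat.beq (Nat.land h 3) 1))
    (look (Nat.shiftRight h 18) 14 t)
    (Nat.beq (Nat.land h 3) 0)

/-- one resolution step -/
noncomputable def step (full F : ℕ) (t : Tr) (ih : ℕ → ℕ → Bool) (cur rest : ℕ) : Bool :=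
  force (Nat.land rest 4503599627370495) fun h =>
    force (res cur (hintC full F t h) (Nat.land (Nat.shiftRight h 2) 65535)) fun c =>
      force (Nat.shiftRight rest 52) (ih c)

/-- a resolution chain packed in one number -/
noncomputable def chain (full F : ℕ) (t : Tr) (L : ℕ) (k : ℕ → Bool) : Bool :=
  force (Nat.land (Nat.shiftRight L 12) 4503599627370495) fun h =>
    force (hintC full F t h) fun c =>
      force (Nat.shiftRight L 64) fun rest =>
        Nat.rec (motive := fun _ => ℕ → ℕ → Bool) (fun cur _ => k cur)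
          (fun _ ih cur rest => step full F t ih cur rest) (Nat.land L 4095) c rest

/-- run all chains -/
noncomputable def run (full F : ℕ) (cert : List ℕ) : ℕ → Tr → Bool :=
  List.rec (fun _ _ => false)
    (fun L _ ih i t => chain full F t L fun C =>
      Bool.rec (put i C 14 t fun t' => force (Nat.succ i) fun i' => ih i' t') true (Nat.beq C 0))
    cert

/-- union of `f c` over `c < N` -/
noncomputable def orR (f : ℕ → ℕ) (N acc : ℕ) (k : ℕ → Bool) : Bool :=
  Nat.rec (motive := fun _ => ℕ → Bool) k (fun m ih a => force (Nat.lor a (f m)) ih) N acc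

/-- cut degree of a code -/
noncomputable def dL (M : List (ℕ × ℕ)) (c : ℕ) : ℕ :=
  List.rec 0 (fun e _ ih => Nat.add
    (Nat.land (Nat.xor (Nat.shiftRight c e.1) (Nat.shiftRight c e.2)) 1) ih) M

/-- mask of an index list -/
noncomputable def msk (l : List ℕ) : ℕ := List.rec 0 (fun i _ ih => Nat.lor (bit i) ih) l

/-- the positive literals of code `c` of level at least `u` -/
def fb (c u : ℕ) : ℕ :=
  Nat.shiftLeft (Nat.shiftRight 21845 (Nat.mul 2 u)) (Nat.add (Nat.mul 2 u) (Nat.mul 16 c))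

/-- guard by a pattern -/
noncomputable def onPat (im om c x : ℕ) : ℕ :=
  Bool.rec 0 (Bool.rec 0 x (Nat.beq (Nat.land c om) 0)) (Nat.beq (Nat.land c im) im)

/-- a pattern with a slack -/
abbrev Ent : Type := List ℕ × List ℕ × ℕ

/-- false literals from forbidden patterns -/
noncomputable def forbM (N : ℕ) (Hn : List (ℕ × ℕ)) (forb : List Ent) (k : ℕ → Bool) : ℕ → Bool :=
  List.rec k (fun e _ ih acc => force (msk e.1) fun im => force (msk e.2.1) fun om =>
    orR (fun c => onPat im om c (fb c (Nat.succ (Nat.sub (Nat.succ (dL Hn c)) e.2.2)))) N acc ih) forb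

/-- false literals of the anchor bound -/
noncomputable def anchF (N : ℕ) (Hn : List (ℕ × ℕ)) (c : ℕ) : ℕ :=
  Bool.rec (Bool.rec (Bool.rec (Bool.rec (fb c (Nat.succ (dL Hn c))) 0 (Nat.beq (Nat.succ (Nat.lor c 3)) N))
    0 (Nat.beq (Nat.shiftRight c 2) 0)) 0 (Nat.beq (Nat.land c 3) 3)) 0 (Nat.beq (Nat.land c 3) 0)

/-- the clause of an existential hypothesis -/
noncomputable def exM (N : ℕ) (Hn : List (ℕ × ℕ)) (l : List Ent) (k : ℕ → Bool) : ℕ → Bool :=
  List.rec k (fun e _ ih acc => force (msk e.1) fun im => force (msk e.2.1) fun om =>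
    orR (fun c => onPat im om c
      (Bool.rec 3 (bit (pos c (cap (Nat.sub (Nat.succ (dL Hn c)) e.2.2))))
        (Nat.ble e.2.2 (Nat.succ (dL Hn c))))) N acc ih) l

/-- store the existential clauses -/
noncomputable def exAll (N F : ℕ) (Hn : List (ℕ × ℕ)) (ex : List (List Ent))
    (k : ℕ → Tr → Bool) : ℕ → Tr → Bool :=
  List.rec k (fun l _ ih i t => exM N Hn l (fun C => force (rm C F) fun C' =>
    put i C' 14 t fun t' => force (Nat.succ i) fun i' => ih i' t') 0) ex

/-- store the clauses of the moves -/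
noncomputable def mvAll (N F : ℕ) (mv : List (List (ℕ × ℕ))) (k : ℕ → Tr → Bool) :
    ℕ → Tr → Bool :=
  List.rec k (fun M _ ih i t => orR (fun c => bit (pos c (cap (Nat.succ (dL M c))))) N 0
    (fun C => force (rm C F) fun C' =>
      put i C' 14 t fun t' => force (Nat.succ i) fun i' => ih i' t')) mv

/-- the checker -/
noncomputable def check (n : ℕ) (Hn : List (ℕ × ℕ)) (forb : List Ent) (ex : List (List Ent))
    (mv : List (List (ℕ × ℕ))) (cert : List ℕ) : Bool :=
  force (Nat.pow 2 n) fun N => force (Nat.sub N 1) fun full =>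
    orR (anchF N Hn) N 0 (forbM N Hn forb fun F =>
      exAll N F Hn ex (mvAll N F mv (run full F cert)) 0 Tr.nil)

/-- the moves use every point exactly once -/
def okMv (n : ℕ) (mv : List (List (ℕ × ℕ))) : Bool :=
  mv.all fun M => decide ((M.map Prod.fst ++ M.map Prod.snd).Perm (List.range n))

section bits

theorem testBit_bit (j i : ℕ) : (bit j).testBit i = decide (j = i) := by
  show (1 <<< j).testBit i = _
  rw [Nat.one_shiftLeft, Nat.testBit_two_pow]

theorem testBit_rm (C F i : ℕ) : (rm C F).testBit i = (C.testBit i && !F.testBit i) := by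
  show ((C ||| F) ^^^ F).testBit i = _
  rw [Nat.testBit_xor, Nat.testBit_or]
  cases C.testBit i <;> cases F.testBit i <;> rfl

theorem testBit_lor (C F i : ℕ) : (Nat.lor C F).testBit i = (C.testBit i || F.testBit i) :=
  Nat.testBit_or C F i

theorem pos_eq (c k : ℕ) : pos c k = 16 * c + 2 * k := rfl

theorem cap_le (k : ℕ) : cap k ≤ k ∧ cap k ≤ 7 := by
  unfold cap
  cases h : Nat.ble k 7
  · have : ¬ k ≤ 7 := fun hk => by rw [Nat.ble_eq_true_of_le hk] at h; cases h
    show 7 ≤ k ∧ 7 ≤ 7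
    omega
  · have := Nat.le_of_ble_eq_true h
    show k ≤ k ∧ k ≤ 7
    omega

theorem testBit_fb {c u j : ℕ} (h : (fb c u).testBit j = true) :
    j % 2 = 0 ∧ j / 16 = c ∧ u ≤ j / 2 % 8 := by
  change ((21845 >>> (2 * u)) <<< (2 * u + 16 * c)).testBit j = true at h
  rw [Nat.testBit_shiftLeft, Nat.testBit_shiftRight, Bool.and_eq_true, decide_eq_true_eq] at h
  obtain ⟨h1, h2⟩ := h
  have key : ∀ i, (21845 : ℕ).testBit i = true → i < 16 ∧ i % 2 = 0 := by
    intro i hi
    have h16 : i < 16 := by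
      by_contra hc
      rw [Nat.testBit_lt_two_pow (lt_of_lt_of_le (by norm_num : 21845 < 2 ^ 16)
        (Nat.pow_le_pow_right (by norm_num) (by omega)))] at hi
      cases hi
    refine ⟨h16, ?_⟩
    interval_cases i <;> first | rfl | exact absurd hi (by decide)
  have := key _ h2
  omega

theorem orR_spec (f : ℕ → ℕ) (N acc : ℕ) (k : ℕ → Bool) (h : orR f N acc k = true) :
    ∃ R, k R = true ∧ ∀ j, R.testBit j = true ↔
      acc.testBit j = true ∨ ∃ c < N, (f c).testBit j = true := by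
  induction N generalizing acc with
  | zero => exact ⟨acc, h, fun j => by simp⟩
  | succ m ih =>
    change force (Nat.lor acc (f m)) (fun a => orR f m a k) = true at h
    rw [force_eq] at h
    obtain ⟨R, h1, h2⟩ := ih _ h
    refine ⟨R, h1, fun j => ?_⟩
    rw [h2, testBit_lor, Bool.or_eq_true]
    constructor
    · rintro ((h | h) | ⟨c, hc, h⟩)
      exacts [Or.inl h, Or.inr ⟨m, by omega, h⟩, Or.inr ⟨c, by omega, h⟩]
    · rintro (h | ⟨c, hc, h⟩)
      · exact Or.inl (Or.inl h)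
      · by_cases hcm : c = m
        · exact Or.inl (Or.inr (hcm ▸ h))
        · exact Or.inr ⟨c, by omega, h⟩

theorem testBit_msk (l : List ℕ) (i : ℕ) : (msk l).testBit i = true ↔ i ∈ l := by
  induction l with
  | nil => simp [msk]
  | cons a l ih =>
    change (Nat.lor (bit a) (msk l)).testBit i = true ↔ _
    rw [testBit_lor, Bool.or_eq_true, testBit_bit, ih, decide_eq_true_eq, List.mem_cons, eq_comm]

theorem land_one (x : ℕ) : Nat.land x 1 = if x.testBit 0 = true then 1 else 0 := by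
  change x &&& 1 = _
  rw [Nat.and_one_is_mod, Nat.testBit_zero]
  rcases Nat.mod_two_eq_zero_or_one x with h | h <;> simp [h]

end bits

variable {V : Type*} [Fintype V] [DecidableEq V]

/-- trace code of a set on the first points -/
def code (pt : ℕ → V) (X : Finset V) : ℕ → ℕ
  | 0 => 0
  | m + 1 => code pt X m ||| (if pt m ∈ X then 2 ^ m else 0)

theorem testBit_code (pt : ℕ → V) (X : Finset V) (n i : ℕ) :
    (code pt X n).testBit i = true ↔ i < n ∧ pt i ∈ X := by
  induction n with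
  | zero => simp [code]
  | succ m ih =>
    rw [code, Nat.testBit_or, Bool.or_eq_true, ih]
    by_cases h : pt m ∈ X
    · rw [if_pos h, Nat.testBit_two_pow, decide_eq_true_eq]
      constructor
      · rintro (⟨a, b⟩ | rfl)
        exacts [⟨by omega, b⟩, ⟨by omega, h⟩]
      · rintro ⟨a, b⟩
        by_cases hi : m = i
        exacts [Or.inr hi, Or.inl ⟨by omega, b⟩]
    · rw [if_neg h]
      simp only [Nat.zero_testBit, Bool.false_eq_true, or_false]
      constructor
      · rintro ⟨a, b⟩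
        exact ⟨by omega, b⟩
      · rintro ⟨a, b⟩
        exact ⟨by by_contra hc; exact h ((by omega : i = m) ▸ b), b⟩

theorem code_lt (pt : ℕ → V) (X : Finset V) (n : ℕ) : code pt X n < 2 ^ n :=
  Nat.lt_pow_two_of_testBit _ fun i hi => by
    cases h : (code pt X n).testBit i
    · rfl
    · have := ((testBit_code pt X n i).1 h).1; omega

theorem code_inter (pt : ℕ → V) (X Y : Finset V) (n : ℕ) :
    code pt (X ∩ Y) n = code pt X n &&& code pt Y n :=
  Nat.eq_of_testBit_eq fun i => by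
    rw [Bool.eq_iff_iff, Nat.testBit_and, Bool.and_eq_true, testBit_code, testBit_code,
      testBit_code, Finset.mem_inter]
    tauto

theorem code_union (pt : ℕ → V) (X Y : Finset V) (n : ℕ) :
    code pt (X ∪ Y) n = code pt X n ||| code pt Y n :=
  Nat.eq_of_testBit_eq fun i => by
    rw [Bool.eq_iff_iff, Nat.testBit_or, Bool.or_eq_true, testBit_code, testBit_code,
      testBit_code, Finset.mem_union]
    tauto

theorem code_empty (pt : ℕ → V) (n : ℕ) : code pt (∅ : Finset V) n = 0 :=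
  Nat.eq_of_testBit_eq fun i => by
    rw [Bool.eq_iff_iff, testBit_code]; simp

theorem code_univ (pt : ℕ → V) (n : ℕ) : code pt (univ : Finset V) n = 2 ^ n - 1 :=
  Nat.eq_of_testBit_eq fun i => by
    rw [Bool.eq_iff_iff, testBit_code, Nat.testBit_two_pow_sub_one]; simp

/-- edges on named points -/
def eP (pt : ℕ → V) (M : List (ℕ × ℕ)) : Multiset (V × V) :=
  ((M.map fun e => (pt e.1, pt e.2) : List (V × V)) : Multiset (V × V))

theorem eP_nil (pt : ℕ → V) : eP pt [] = 0 := rfl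

theorem eP_cons (pt : ℕ → V) (e : ℕ × ℕ) (M : List (ℕ × ℕ)) :
    eP pt (e :: M) = (pt e.1, pt e.2) ::ₘ eP pt M := rfl

theorem dL_code (pt : ℕ → V) (X : Finset V) (n : ℕ) (M : List (ℕ × ℕ))
    (hM : ∀ e ∈ M, e.1 < n ∧ e.2 < n) : (dL M (code pt X n) : ℤ) = dG (eP pt M) X := by
  induction M with
  | nil => simp [dL, eP_nil]
  | cons e M ih =>
    have h1 := hM e (List.mem_cons_self ..)
    change ((Nat.land ((code pt X n >>> e.1) ^^^ (code pt X n >>> e.2)) 1 +
      dL M (code pt X n) : ℕ) : ℤ) = _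
    rw [eP_cons, dG_cons, Nat.cast_add, ih (fun e' he' => hM e' (List.mem_cons_of_mem _ he')),
      land_one, Nat.testBit_xor, Nat.testBit_shiftRight, Nat.testBit_shiftRight, add_zero, add_zero]
    have a := testBit_code pt X n e.1
    have b := testBit_code pt X n e.2
    unfold cut
    by_cases u : pt e.1 ∈ X <;> by_cases v : pt e.2 ∈ X <;> simp_all

/-- the set contains the points `ins` and avoids the points `outs` -/
def Mt (pt : ℕ → V) (X : Finset V) (ins outs : List ℕ) : Prop :=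
  (∀ i ∈ ins, pt i ∈ X) ∧ ∀ i ∈ outs, pt i ∉ X

theorem onPat_bit {pt : ℕ → V} {X : Finset V} {n : ℕ} {ins outs : List ℕ} {x j : ℕ}
    (ho : ∀ i ∈ outs, i < n) (h : (onPat (msk ins) (msk outs) (code pt X n) x).testBit j = true) :
    Mt pt X ins outs ∧ x.testBit j = true := by
  unfold onPat at h
  cases h1 : Nat.beq (Nat.land (code pt X n) (msk ins)) (msk ins) <;> rw [h1] at h
  · simp at h
  cases h2 : Nat.beq (Nat.land (code pt X n) (msk outs)) 0 <;> rw [h2] at h
  · simp at h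
  refine ⟨⟨fun i hi => ?_, fun i hi hX => ?_⟩, h⟩
  · have e : code pt X n &&& msk ins = msk ins := Nat.eq_of_beq_eq_true h1
    have := (testBit_msk ins i).2 hi
    rw [← e, Nat.testBit_and, Bool.and_eq_true] at this
    exact ((testBit_code pt X n i).1 this.1).2
  · have e : code pt X n &&& msk outs = 0 := Nat.eq_of_beq_eq_true h2
    have : (code pt X n &&& msk outs).testBit i = true := by
      rw [Nat.testBit_and, Bool.and_eq_true]
      exact ⟨(testBit_code pt X n i).2 ⟨ho i hi, hX⟩, (testBit_msk outs i).2 hi⟩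
    rw [e] at this
    simp at this

theorem onPat_of {pt : ℕ → V} {X : Finset V} {n : ℕ} {ins outs : List ℕ} (x : ℕ)
    (hi : ∀ i ∈ ins, i < n) (h : Mt pt X ins outs) :
    onPat (msk ins) (msk outs) (code pt X n) x = x := by
  have e1 : code pt X n &&& msk ins = msk ins := Nat.eq_of_testBit_eq fun i => by
    rw [Bool.eq_iff_iff, Nat.testBit_and, Bool.and_eq_true, testBit_code, testBit_msk]
    exact ⟨fun a => a.2, fun a => ⟨⟨hi i a, h.1 i a⟩, a⟩⟩
  have e2 : code pt X n &&& msk outs = 0 := Nat.eq_of_testBit_eq fun i => by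
    rw [Bool.eq_iff_iff, Nat.testBit_and, Bool.and_eq_true, testBit_code, testBit_msk]
    simp only [Nat.zero_testBit, Bool.false_eq_true, iff_false]
    exact fun a => h.2 i a.2 a.1.2
  unfold onPat
  rw [show Nat.land (code pt X n) (msk ins) = msk ins from e1,
    show Nat.land (code pt X n) (msk outs) = 0 from e2, Nat.beq_refl, Nat.beq_refl]

section sem
variable (n : ℕ) (pt : ℕ → V) (p : Finset V → ℤ)

/-- an atom -/
def At (c k : ℕ) : Prop := ∃ X, code pt X n = c ∧ (k : ℤ) ≤ p X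

/-- a literal -/
def Lit (j : ℕ) : Prop :=
  (j % 2 = 0 ∧ At n pt p (j / 16) (j / 2 % 8)) ∨ (j % 2 = 1 ∧ ¬ At n pt p (j / 16) (j / 2 % 8))

/-- a clause holds -/
def Holds (C : ℕ) : Prop := ∃ j, C.testBit j = true ∧ Lit n pt p j

/-- all literals of the mask are false -/
def FM (F : ℕ) : Prop := ∀ j, F.testBit j = true → ¬ Lit n pt p j

variable {n pt p}

theorem lit_pos {c k : ℕ} (hk : k ≤ 7) (h : At n pt p c k) : Lit n pt p (pos c k) := by
  rw [pos_eq]
  refine Or.inl ⟨by omega, ?_⟩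
  rwa [show (16 * c + 2 * k) / 16 = c by omega, show (16 * c + 2 * k) / 2 % 8 = k by omega]

theorem lit_neg {c k : ℕ} (hk : k ≤ 7) (h : ¬ At n pt p c k) :
    Lit n pt p (Nat.succ (pos c k)) := by
  rw [pos_eq, Nat.succ_eq_add_one]
  refine Or.inr ⟨by omega, ?_⟩
  rwa [show (16 * c + 2 * k + 1) / 16 = c by omega,
    show (16 * c + 2 * k + 1) / 2 % 8 = k by omega]

theorem holds_bit {j : ℕ} (h : Lit n pt p j) : Holds n pt p (bit j) :=
  ⟨j, by rw [testBit_bit]; simp, h⟩

theorem Holds.left {A : ℕ} (h : Holds n pt p A) (B : ℕ) : Holds n pt p (Nat.lor A B) := by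
  obtain ⟨j, h1, h2⟩ := h
  exact ⟨j, by rw [testBit_lor, h1]; rfl, h2⟩

theorem Holds.right {B : ℕ} (h : Holds n pt p B) (A : ℕ) : Holds n pt p (Nat.lor A B) := by
  obtain ⟨j, h1, h2⟩ := h
  exact ⟨j, by rw [testBit_lor, h1]; simp, h2⟩

theorem holds_three : Holds n pt p 3 := by
  by_cases h : At n pt p 0 0
  · exact ⟨0, by decide, Or.inl ⟨rfl, h⟩⟩
  · exact ⟨1, by decide, Or.inr ⟨rfl, h⟩⟩

theorem not_holds_zero : ¬ Holds n pt p 0 := by
  rintro ⟨j, h, _⟩
  simp at h

theorem Holds.rm {C F : ℕ} (h : Holds n pt p C) (hF : FM n pt p F) : Holds n pt p (rm C F) := by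
  obtain ⟨j, h1, h2⟩ := h
  refine ⟨j, ?_, h2⟩
  rw [testBit_rm, h1]
  cases hj : F.testBit j
  · rfl
  · exact absurd h2 (hF j hj)

theorem fm_bit {j : ℕ} (h : ¬ Lit n pt p j) : FM n pt p (bit j) := by
  intro i hi
  rw [testBit_bit, decide_eq_true_eq] at hi
  exact hi ▸ h

theorem holds_res {A B : ℕ} (hA : Holds n pt p A) (hB : Holds n pt p B) (j : ℕ) :
    Holds n pt p (res A B j) := by
  by_cases h : Lit n pt p j
  · refine Holds.left (hA.rm (fm_bit ?_)) _
    change ¬ Lit n pt p (j ^^^ 1)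
    rcases h with ⟨h1, h2⟩ | ⟨h1, h2⟩
    · rw [Nat.xor_one_of_even (Nat.even_iff.2 h1)]
      rintro (⟨a, _⟩ | ⟨_, b⟩)
      · omega
      · rw [show (j + 1) / 16 = j / 16 by omega, show (j + 1) / 2 % 8 = j / 2 % 8 by omega] at b
        exact b h2
    · rw [Nat.xor_one_of_odd (Nat.odd_iff.2 h1)]
      rintro (⟨_, b⟩ | ⟨a, _⟩)
      · rw [show (j - 1) / 16 = j / 16 by omega, show (j - 1) / 2 % 8 = j / 2 % 8 by omega] at b
        exact h2 b
      · omega
  · exact Holds.right (hB.rm (fm_bit h)) _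

theorem At.mono {c k k' : ℕ} (h : At n pt p c k) (hk : k' ≤ k) : At n pt p c k' := by
  obtain ⟨X, h1, h2⟩ := h
  exact ⟨X, h1, le_trans (by exact_mod_cast hk) h2⟩

theorem holds_cross (hp : CrossingSupermodular p) (X Y a b j : ℕ) (ha : a ≤ 7) (hb : b ≤ 7)
    (hj : j ≤ 7) : Holds n pt p (crossC (2 ^ n - 1) X Y a b j) := by
  unfold crossC
  cases h0 : Nat.ble j (Nat.succ (Nat.add a b))
  · exact holds_three
  cases h1 : Nat.beq (Nat.land X Y) 0
  swap
  · exact holds_three
  cases h2 : Nat.beq (Nat.land X Y) X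
  swap
  · exact holds_three
  cases h3 : Nat.beq (Nat.land X Y) Y
  swap
  · exact holds_three
  cases h4 : Nat.beq (Nat.lor X Y) (2 ^ n - 1)
  swap
  · exact holds_three
  have k0 : j ≤ a + b + 1 := Nat.le_of_ble_eq_true h0
  have k1 : X &&& Y ≠ 0 := Nat.ne_of_beq_eq_false h1
  have k2 : X &&& Y ≠ X := Nat.ne_of_beq_eq_false h2
  have k3 : X &&& Y ≠ Y := Nat.ne_of_beq_eq_false h3
  have k4 : X ||| Y ≠ 2 ^ n - 1 := Nat.ne_of_beq_eq_false h4
  by_cases hX : At n pt p X a
  swap
  · exact ((holds_bit (lit_neg ha hX)).left _).left _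
  by_cases hY : At n pt p Y b
  swap
  · exact ((holds_bit (lit_neg hb hY)).right _).left _
  obtain ⟨X0, rfl, x2⟩ := hX
  obtain ⟨Y0, rfl, y2⟩ := hY
  rw [← code_inter] at k1 k2 k3
  rw [← code_union] at k4
  have hc : Crossing X0 Y0 := by
    refine ⟨?_, ?_, ?_, ?_⟩
    · rw [Finset.nonempty_iff_ne_empty]
      intro h; rw [h, code_empty] at k1; exact k1 rfl
    · rw [Finset.sdiff_nonempty]
      intro h; rw [Finset.inter_eq_left.2 h] at k2; exact k2 rfl
    · rw [Finset.sdiff_nonempty]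
      intro h; rw [Finset.inter_eq_right.2 h] at k3; exact k3 rfl
    · rw [Finset.nonempty_iff_ne_empty]
      intro h; rw [(Finset.compl_eq_empty_iff _).1 h, code_univ] at k4; exact k4 rfl
  have hs := hp X0 Y0 hc
  by_cases hI : (j : ℤ) ≤ p (X0 ∩ Y0)
  · exact ((holds_bit (lit_pos hj ⟨X0 ∩ Y0, code_inter .., hI⟩)).left _).right _
  · refine ((holds_bit (lit_pos (cap_le _).2 (At.mono (k := a + b + 1 - j)
      ⟨X0 ∪ Y0, code_union .., ?_⟩ (cap_le _).1))).right _).right _
    rw [Nat.cast_sub k0]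
    push_cast
    omega

theorem holds_hint (hp : CrossingSupermodular p) {F : ℕ} (hF : FM n pt p F) {t : Tr}
    (ht : All (Holds n pt p) t) (h : ℕ) : Holds n pt p (hintC (2 ^ n - 1) F t h) := by
  unfold hintC
  cases Nat.beq (Nat.land h 3) 0
  swap
  · exact look_ok holds_three _ _ t ht
  cases Nat.beq (Nat.land h 3) 1
  · have m8 : ∀ x : ℕ, Nat.mod x 8 ≤ 7 := fun x => by
      have : x % 8 < 8 := Nat.mod_lt _ (by norm_num)
      exact Nat.le_of_lt_succ this
    exact (holds_cross hp _ _ _ _ _ (m8 _) (m8 _) (m8 _)).rm hF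
  · have m7 : Nat.mod (Nat.shiftRight h 30) 7 < 7 := Nat.mod_lt _ (by norm_num)
    by_cases hA : At n pt p (Nat.land (Nat.shiftRight h 18) 4095)
      (Nat.succ (Nat.mod (Nat.shiftRight h 30) 7))
    · exact (holds_bit (lit_pos m7.le (hA.mono (Nat.le_succ _)))).right _
    · exact (holds_bit (lit_neg m7 hA)).left _

theorem chain_ok (hp : CrossingSupermodular p) {F : ℕ} (hF : FM n pt p F) {t : Tr}
    (ht : All (Holds n pt p) t) (L : ℕ) (k : ℕ → Bool) (h : chain (2 ^ n - 1) F t L k = true) :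
    ∃ C, Holds n pt p C ∧ k C = true := by
  unfold chain at h
  rw [force_eq, force_eq, force_eq] at h
  have key : ∀ m c rest, Holds n pt p c → Nat.rec (motive := fun _ => ℕ → ℕ → Bool)
      (fun cur _ => k cur) (fun _ ih cur rest => step (2 ^ n - 1) F t ih cur rest) m c rest = true →
      ∃ C, Holds n pt p C ∧ k C = true := by
    intro m
    induction m with
    | zero => intro c _ hc hk; exact ⟨c, hc, hk⟩
    | succ m ih =>
      intro c rest hc hk
      change step (2 ^ n - 1) F t _ c rest = true at hk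
      unfold step at hk
      rw [force_eq, force_eq, force_eq] at hk
      exact ih _ _ (holds_res hc (holds_hint hp hF ht _) _) hk
  exact key _ _ _ (holds_hint hp hF ht _) h

theorem run_ok (hp : CrossingSupermodular p) {F : ℕ} (hF : FM n pt p F) (cert : List ℕ) (i : ℕ)
    (t : Tr) (ht : All (Holds n pt p) t) (h : run (2 ^ n - 1) F cert i t = true) : False := by
  induction cert generalizing i t with
  | nil => cases h
  | cons L cert ih =>
    obtain ⟨C, hC, hk⟩ := chain_ok hp hF ht L _ h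
    cases hb : Nat.beq C 0 <;> rw [hb] at hk
    · obtain ⟨t', h1, h2⟩ := put_ok hC 14 t _ ht hk
      rw [force_eq] at h2
      exact ih _ t' h1 h2
    · exact not_holds_zero (Nat.eq_of_beq_eq_true hb ▸ hC)

theorem fm_fb {c u : ℕ} (h : ∀ X, code pt X n = c → p X < u) : FM n pt p (fb c u) := by
  intro j hj
  obtain ⟨h1, h2, h3⟩ := testBit_fb hj
  rintro (⟨_, X, x1, x2⟩ | ⟨a, _⟩)
  · have := h X (h2 ▸ x1)
    omega
  · omega

theorem fm_of_spec {f : ℕ → ℕ} {N acc R : ℕ} (ha : FM n pt p acc) (hf : ∀ c, FM n pt p (f c))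
    (h : ∀ j, R.testBit j = true ↔ acc.testBit j = true ∨ ∃ c < N, (f c).testBit j = true) :
    FM n pt p R := by
  intro j hj
  rcases (h j).1 hj with a | ⟨c, _, a⟩
  exacts [ha j a, hf c j a]

theorem fm_zero : FM n pt p 0 := fun j hj => by simp at hj

theorem forbM_ok {Hn : List (ℕ × ℕ)} (hH : ∀ e ∈ Hn, e.1 < n ∧ e.2 < n) (N : ℕ) (forb : List Ent)
    (hi : ∀ e ∈ forb, ∀ i ∈ e.2.1, i < n)
    (hf : ∀ e ∈ forb, ∀ X, Mt pt X e.1 e.2.1 → p X + e.2.2 ≤ dG (eP pt Hn) X + 1)
    (k : ℕ → Bool) (acc : ℕ) (ha : FM n pt p acc) (h : forbM N Hn forb k acc = true) :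
    ∃ F, FM n pt p F ∧ k F = true := by
  induction forb generalizing acc with
  | nil => exact ⟨acc, ha, h⟩
  | cons e forb ih =>
    change force (msk e.1) (fun im => force (msk e.2.1) fun om =>
      orR (fun c => onPat im om c (fb c (Nat.succ (Nat.sub (Nat.succ (dL Hn c)) e.2.2)))) N acc
        (forbM N Hn forb k)) = true at h
    rw [force_eq, force_eq] at h
    obtain ⟨R, h1, h2⟩ := orR_spec _ _ _ _ h
    refine ih (fun e' he' => hi e' (List.mem_cons_of_mem _ he'))
      (fun e' he' => hf e' (List.mem_cons_of_mem _ he')) R (fm_of_spec ha (fun c j hj => ?_) h2) h1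
    rintro (⟨a, X, x1, x2⟩ | ⟨a, _⟩)
    · have hc : j / 16 = c := by
        unfold onPat at hj
        cases b1 : Nat.beq (Nat.land c (msk e.1)) (msk e.1) <;> rw [b1] at hj
        · simp at hj
        cases b2 : Nat.beq (Nat.land c (msk e.2.1)) 0 <;> rw [b2] at hj
        · simp at hj
        exact (testBit_fb hj).2.1
      rw [hc] at x1
      subst x1
      obtain ⟨m1, m2⟩ := onPat_bit (hi e (List.mem_cons_self ..)) hj
      have b1 := hf e (List.mem_cons_self ..) X m1
      have b2 := (testBit_fb m2).2.2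
      rw [← dL_code pt X n Hn hH] at b1
      change dL Hn (code pt X n) + 1 - e.2.2 + 1 ≤ _ at b2
      omega
    · have hc : j % 2 = 0 := by
        unfold onPat at hj
        cases b1 : Nat.beq (Nat.land c (msk e.1)) (msk e.1) <;> rw [b1] at hj
        · simp at hj
        cases b2 : Nat.beq (Nat.land c (msk e.2.1)) 0 <;> rw [b2] at hj
        · simp at hj
        exact (testBit_fb hj).1
      omega

theorem fm_anch {Hn : List (ℕ × ℕ)} (hH : ∀ e ∈ Hn, e.1 < n ∧ e.2 < n) (hn : 2 ≤ n)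
    (hA : ∀ X, ¬ (pt 0 ∈ X ↔ pt 1 ∈ X) → (∃ i, 2 ≤ i ∧ i < n ∧ pt i ∈ X) →
      (∃ i, 2 ≤ i ∧ i < n ∧ pt i ∉ X) → p X ≤ dG (eP pt Hn) X) (c : ℕ) :
    FM n pt p (anchF (2 ^ n) Hn c) := by
  unfold anchF
  cases h1 : Nat.beq (Nat.land c 3) 0
  swap
  · exact fm_zero
  cases h2 : Nat.beq (Nat.land c 3) 3
  swap
  · exact fm_zero
  cases h3 : Nat.beq (Nat.shiftRight c 2) 0
  swap
  · exact fm_zero
  cases h4 : Nat.beq (Nat.succ (Nat.lor c 3)) (2 ^ n)
  swap
  · exact fm_zero
  have k1 : c &&& 3 ≠ 0 := Nat.ne_of_beq_eq_false h1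
  have k2 : c &&& 3 ≠ 3 := Nat.ne_of_beq_eq_false h2
  have k3 : c >>> 2 ≠ 0 := Nat.ne_of_beq_eq_false h3
  have k4 : (c ||| 3) + 1 ≠ 2 ^ n := Nat.ne_of_beq_eq_false h4
  refine fm_fb fun X hX => ?_
  subst hX
  have t3 : ∀ i, (3 : ℕ).testBit i = decide (i < 2) := fun i => Nat.testBit_two_pow_sub_one 2 i
  have := hA X ?_ ?_ ?_
  · rw [← dL_code pt X n Hn hH] at this
    push_cast
    omega
  · intro hiff
    by_cases h0 : pt 0 ∈ X
    · refine k2 (Nat.eq_of_testBit_eq fun i => ?_)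
      rw [Bool.eq_iff_iff, Nat.testBit_and, Bool.and_eq_true, testBit_code, t3, decide_eq_true_eq]
      refine ⟨fun a => a.2, fun a => ⟨⟨by omega, ?_⟩, a⟩⟩
      interval_cases i
      exacts [h0, hiff.1 h0]
    · refine k1 (Nat.eq_of_testBit_eq fun i => ?_)
      rw [Bool.eq_iff_iff, Nat.testBit_and, Bool.and_eq_true, testBit_code, t3, decide_eq_true_eq]
      simp only [Nat.zero_testBit, Bool.false_eq_true, iff_false]
      rintro ⟨⟨_, b⟩, a⟩
      interval_cases i
      exacts [h0 b, h0 (hiff.2 b)]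
  · by_contra hc
    refine k3 (Nat.eq_of_testBit_eq fun i => ?_)
    rw [Bool.eq_iff_iff, Nat.testBit_shiftRight, testBit_code]
    simp only [Nat.zero_testBit, Bool.false_eq_true, iff_false]
    rintro ⟨a, b⟩
    exact hc ⟨2 + i, by omega, a, b⟩
  · by_contra hc
    have : code pt X n ||| 3 = 2 ^ n - 1 := Nat.eq_of_testBit_eq fun i => by
      rw [Bool.eq_iff_iff, Nat.testBit_or, Bool.or_eq_true, testBit_code, t3,
        Nat.testBit_two_pow_sub_one, decide_eq_true_eq, decide_eq_true_eq]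
      refine ⟨fun a => by rcases a with a | a <;> omega, fun a => ?_⟩
      by_cases h2 : i < 2
      · exact Or.inr h2
      · exact Or.inl ⟨a, by by_contra hb; exact hc ⟨i, by omega, a, hb⟩⟩
    have h2 : 0 < 2 ^ n := Nat.two_pow_pos n
    omega

theorem exM_ok {Hn : List (ℕ × ℕ)} (hH : ∀ e ∈ Hn, e.1 < n ∧ e.2 < n) (l : List Ent)
    (hi : ∀ e ∈ l, ∀ i ∈ e.1, i < n) (k : ℕ → Bool) (acc : ℕ)
    (he : Holds n pt p acc ∨ ∃ e ∈ l, ∃ X, Mt pt X e.1 e.2.1 ∧ dG (eP pt Hn) X + 1 ≤ p X + e.2.2)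
    (h : exM (2 ^ n) Hn l k acc = true) : ∃ C, Holds n pt p C ∧ k C = true := by
  induction l generalizing acc with
  | nil =>
    rcases he with he | ⟨e, he, _⟩
    · exact ⟨acc, he, h⟩
    · cases he
  | cons e l ih =>
    change force (msk e.1) (fun im => force (msk e.2.1) fun om =>
      orR (fun c => onPat im om c
        (Bool.rec 3 (bit (pos c (cap (Nat.sub (Nat.succ (dL Hn c)) e.2.2))))
          (Nat.ble e.2.2 (Nat.succ (dL Hn c))))) (2 ^ n) acc (exM (2 ^ n) Hn l k)) = true at h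
    rw [force_eq, force_eq] at h
    obtain ⟨R, h1, h2⟩ := orR_spec _ _ _ _ h
    refine ih (fun e' he' => hi e' (List.mem_cons_of_mem _ he')) R ?_ h1
    rcases he with ⟨j, a, b⟩ | ⟨e', he', X, m1, m2⟩
    · exact Or.inl ⟨j, (h2 j).2 (Or.inl a), b⟩
    rcases List.mem_cons.1 he' with rfl | he'
    · left
      have : Holds n pt p (Bool.rec 3 (bit (pos (code pt X n)
          (cap (Nat.sub (Nat.succ (dL Hn (code pt X n))) e'.2.2))))
          (Nat.ble e'.2.2 (Nat.succ (dL Hn (code pt X n))))) := by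
        cases hb : Nat.ble e'.2.2 (Nat.succ (dL Hn (code pt X n)))
        · exact holds_three
        · have b1 : e'.2.2 ≤ dL Hn (code pt X n) + 1 := Nat.le_of_ble_eq_true hb
          refine holds_bit (lit_pos (cap_le _).2
            (At.mono (k := dL Hn (code pt X n) + 1 - e'.2.2) ⟨X, rfl, ?_⟩ (cap_le _).1))
          rw [← dL_code pt X n Hn hH] at m2
          rw [Nat.cast_sub b1]
          push_cast
          omega
      obtain ⟨j, a, b⟩ := this
      refine ⟨j, (h2 j).2 (Or.inr ⟨code pt X n, code_lt .., ?_⟩), b⟩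
      rw [onPat_of _ (hi _ (List.mem_cons_self ..)) m1]
      exact a
    · exact Or.inr ⟨e', he', X, m1, m2⟩

theorem exAll_ok {Hn : List (ℕ × ℕ)} (hH : ∀ e ∈ Hn, e.1 < n ∧ e.2 < n) {F : ℕ} (hF : FM n pt p F)
    (ex : List (List Ent)) (hi : ∀ l ∈ ex, ∀ e ∈ l, ∀ i ∈ e.1, i < n)
    (he : ∀ l ∈ ex, ∃ e ∈ l, ∃ X, Mt pt X e.1 e.2.1 ∧ dG (eP pt Hn) X + 1 ≤ p X + e.2.2)
    (k : ℕ → Tr → Bool) (i : ℕ) (t : Tr) (ht : All (Holds n pt p) t)
    (h : exAll (2 ^ n) F Hn ex k i t = true) : ∃ i' t', All (Holds n pt p) t' ∧ k i' t' = true := by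
  induction ex generalizing i t with
  | nil => exact ⟨i, t, ht, h⟩
  | cons l ex ih =>
    obtain ⟨C, hC, hk⟩ := exM_ok hH l (hi l (List.mem_cons_self ..)) _ 0
      (Or.inr (he l (List.mem_cons_self ..))) h
    rw [force_eq] at hk
    obtain ⟨t', h1, h2⟩ := put_ok (hC.rm hF) 14 t _ ht hk
    rw [force_eq] at h2
    exact ih (fun l' hl => hi l' (List.mem_cons_of_mem _ hl))
      (fun l' hl => he l' (List.mem_cons_of_mem _ hl)) _ t' h1 h2

theorem mvAll_ok {F : ℕ} (hF : FM n pt p F) (mv : List (List (ℕ × ℕ)))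
    (hm : ∀ M ∈ mv, (∀ e ∈ M, e.1 < n ∧ e.2 < n) ∧ ∃ X, dG (eP pt M) X + 1 ≤ p X)
    (k : ℕ → Tr → Bool) (i : ℕ) (t : Tr) (ht : All (Holds n pt p) t)
    (h : mvAll (2 ^ n) F mv k i t = true) : ∃ i' t', All (Holds n pt p) t' ∧ k i' t' = true := by
  induction mv generalizing i t with
  | nil => exact ⟨i, t, ht, h⟩
  | cons M mv ih =>
    obtain ⟨R, h1, h2⟩ := orR_spec _ _ _ _ h
    obtain ⟨hM, X, hX⟩ := hm M (List.mem_cons_self ..)
    have hR : Holds n pt p R := by
      obtain ⟨j, a, b⟩ : Holds n pt p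
          (bit (pos (code pt X n) (cap (Nat.succ (dL M (code pt X n)))))) := by
        refine holds_bit (lit_pos (cap_le _).2
          (At.mono (k := dL M (code pt X n) + 1) ⟨X, rfl, ?_⟩ (cap_le _).1))
        rw [← dL_code pt X n M hM] at hX
        push_cast
        omega
      exact ⟨j, (h2 j).2 (Or.inr ⟨code pt X n, code_lt .., a⟩), b⟩
    rw [force_eq] at h1
    obtain ⟨t', h3, h4⟩ := put_ok (hR.rm hF) 14 t _ ht h1
    rw [force_eq] at h4
    exact ih (fun M' hM' => hm M' (List.mem_cons_of_mem _ hM')) _ t' h3 h4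

end sem

theorem ends_eP (pt : ℕ → V) (M : List (ℕ × ℕ)) :
    ends (eP pt M) = (((M.map Prod.fst ++ M.map Prod.snd).map pt : List V) : Multiset V) := by
  simp only [ends, eP, Multiset.map_coe, List.map_map, List.map_append, Multiset.coe_add]
  rfl

/-- index bounds of the data -/
def okIdx (n : ℕ) (Hn : List (ℕ × ℕ)) (forb : List Ent) (ex : List (List Ent)) : Bool :=
  decide (2 ≤ n) && decide (∀ e ∈ Hn, e.1 < n ∧ e.2 < n) &&
    decide (∀ e ∈ forb, ∀ i ∈ e.2.1, i < n) && decide (∀ l ∈ ex, ∀ e ∈ l, ∀ i ∈ e.1, i < n)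

/-- soundness of the checker -/
theorem refute {n : ℕ} {pt : ℕ → V} {p : Finset V → ℤ} (hp : CrossingSupermodular p)
    {Hn : List (ℕ × ℕ)} {forb : List Ent} {ex : List (List Ent)} {mv : List (List (ℕ × ℕ))}
    {cert : List ℕ} (hc : check n Hn forb ex mv cert = true) (hi : okIdx n Hn forb ex = true)
    (hm : okMv n mv = true)
    (hA : ∀ X, ¬ (pt 0 ∈ X ↔ pt 1 ∈ X) → (∃ i, 2 ≤ i ∧ i < n ∧ pt i ∈ X) →
      (∃ i, 2 ≤ i ∧ i < n ∧ pt i ∉ X) → p X ≤ dG (eP pt Hn) X)
    (hf : ∀ e ∈ forb, ∀ X, Mt pt X e.1 e.2.1 → p X + e.2.2 ≤ dG (eP pt Hn) X + 1)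
    (he : ∀ l ∈ ex, ∃ e ∈ l, ∃ X, Mt pt X e.1 e.2.1 ∧ dG (eP pt Hn) X + 1 ≤ p X + e.2.2)
    (hu : ¬ Solvable p (((List.range n).map pt : List V) : Multiset V)) : False := by
  simp only [okIdx, Bool.and_eq_true, decide_eq_true_eq] at hi
  obtain ⟨⟨⟨i1, i2⟩, i3⟩, i4⟩ := hi
  unfold check at hc
  rw [force_eq, force_eq] at hc
  obtain ⟨R, h1, h2⟩ := orR_spec _ _ _ _ hc
  have hR : FM n pt p R := fm_of_spec fm_zero (fm_anch i2 i1 hA) h2
  obtain ⟨F, hF, h3⟩ := forbM_ok i2 _ forb i3 hf _ R hR h1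
  obtain ⟨i, t, ht, h4⟩ := exAll_ok i2 hF ex i4 he _ 0 Tr.nil trivial h3
  obtain ⟨i', t', ht', h5⟩ := mvAll_ok hF mv (fun M hM => by
    have hperm := of_decide_eq_true (List.all_eq_true.1 hm M hM)
    refine ⟨fun e he' => ⟨?_, ?_⟩, ?_⟩
    · exact List.mem_range.1 (hperm.subset (List.mem_append_left _ (List.mem_map_of_mem he')))
    · exact List.mem_range.1 (hperm.subset (List.mem_append_right _ (List.mem_map_of_mem he')))
    · by_contra hc'
      refine hu ⟨eP pt M, ?_, fun X => ?_⟩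
      · rw [ends_eP]
        exact Multiset.coe_eq_coe.2 (hperm.map pt)
      · by_contra hX
        exact hc' ⟨X, by omega⟩) _ i t ht h4
  exact run_ok hp hF cert i' t' ht' h5

end Pool.Agent.CSG.TS
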